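import Mathlib
import Pool.Agent.Y627.SP.Exact
import Pool.Agent.Results.MP_5a602a_nt.MahlerSpectrum

set_option autoImplicit false

namespace Pool.Agent.Results.MP_5a602a_nt.JointSpectrum

open Polynomial

/-- The naive height of an integer polynomial: the maximum of the absolute values of its
coefficients. -/
def naiveHeight (P : ℤ[X]) : ℕ := P.support.sup fun i => (P.coeff i).natAbs

/-- For arbitrarily large real `X ≥ 1` there is an irreducible integer polynomial `P` of degree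
exactly `n` with `H(P) ≤ X` and `0 < |P(ζ)| ≤ X^(-w)`. -/
def SolvableArbitrarilyLarge (n : ℕ) (ζ w : ℝ) : Prop :=
  ∀ X₀ : ℝ, ∃ X : ℝ, X₀ ≤ X ∧ 1 ≤ X ∧ ∃ P : ℤ[X], P.natDegree = n ∧ Irreducible P ∧
    (naiveHeight P : ℝ) ≤ X ∧ 0 < |aeval ζ P| ∧ |aeval ζ P| ≤ X ^ (-w)

/-- The exponent `w_{=n}(ζ)`, as an extended real number. -/
noncomputable def wExact (n : ℕ) (ζ : ℝ) : EReal :=
  sSup {w : EReal | ∃ r : ℝ, w = (r : EReal) ∧ SolvableArbitrarilyLarge n ζ r}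

/-- `P` is the minimal polynomial over the integers of the real number `α`: the primitive integer
polynomial of least positive degree with positive leading coefficient that vanishes at `α`. -/
def IsMinimalPolynomial (P : ℤ[X]) (α : ℝ) : Prop :=
  P.IsPrimitive ∧ 0 < P.leadingCoeff ∧ 0 < P.natDegree ∧ aeval α P = 0 ∧
    ∀ Q : ℤ[X], Q ≠ 0 → aeval α Q = 0 → P.natDegree ≤ Q.natDegree

/-- For arbitrarily large real `X ≥ 1` there is a non-zero real algebraic number `α` of degree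
exactly `n` with `H(α) ≤ X` and `0 < |ζ - α| ≤ H(α)^(-1) X^(-w)`. -/
def StarSolvableArbitrarilyLarge (n : ℕ) (ζ w : ℝ) : Prop :=
  ∀ X₀ : ℝ, ∃ X : ℝ, X₀ ≤ X ∧ 1 ≤ X ∧ ∃ (α : ℝ) (P : ℤ[X]), α ≠ 0 ∧ IsMinimalPolynomial P α ∧
    P.natDegree = n ∧ (naiveHeight P : ℝ) ≤ X ∧ 0 < |ζ - α| ∧
    |ζ - α| ≤ (naiveHeight P : ℝ)⁻¹ * X ^ (-w)

/-- The exponent `w^*_{=n}(ζ)`, as an extended real number. -/
noncomputable def wStarExact (n : ℕ) (ζ : ℝ) : EReal :=
  sSup {w : EReal | ∃ r : ℝ, w = (r : EReal) ∧ StarSolvableArbitrarilyLarge n ζ r}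

/-- The spectrum of `w_{=n}`: the set of its values at the transcendental real numbers. -/
def spectrum (n : ℕ) : Set EReal := {x | ∃ ζ : ℝ, Transcendental ℚ ζ ∧ wExact n ζ = x}

/-- The spectrum of `w^*_{=n}`. -/
def starSpectrum (n : ℕ) : Set EReal := {x | ∃ ζ : ℝ, Transcendental ℚ ζ ∧ wStarExact n ζ = x}

/-- The transcendental real numbers with `w_{=n}(ζ) = w^*_{=n}(ζ) = w_n` for all `n ≥ 1`. -/
def Prescribed (w : ℕ → ℝ) : Set ℝ :=
  {ζ : ℝ | Transcendental ℚ ζ ∧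
    ∀ n : ℕ, 1 ≤ n → wExact n ζ = (w n : EReal) ∧ wStarExact n ζ = (w n : EReal)}

lemma le_wStar {n : ℕ} (ξ w : ℝ) (hw : 0 < w) (hξ : ∀ P : ℤ[X], P ≠ 0 → aeval ξ P ≠ 0)
    (hinf : {α : ℝ | ∃ P : ℤ[X], Pool.Agent.W71.MinPolyZ P α ∧ P.natDegree = n ∧
      |ξ - α| < (Pool.Agent.W71.hgt P : ℝ) ^ (-(1 + w))}.Infinite) :
    (w : EReal) ≤ wStarExact n ξ := by
  apply Pool.Agent.W71.le_sSup_real (fun r => StarSolvableArbitrarilyLarge n ξ r) w hw
  intro v hv0 hvw X₀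
  obtain ⟨X, h1, h2, α, P, h3, h4, h5, h6, h7, h8⟩ :=
    Pool.Agent.Y627.SP.star_lower (n := n) ξ w v hw.le hvw hv0 hξ hinf X₀
  exact ⟨X, h1, h2, α, P, h3, h4, h5, h6, h7, h8⟩

lemma wStar_le {n : ℕ} (ξ w : ℝ) (hw : 0 ≤ w) (hξ : ∀ P : ℤ[X], P ≠ 0 → aeval ξ P ≠ 0)
    (hfin : ∀ v : ℝ, w < v → {α : ℝ | ∃ P : ℤ[X], Pool.Agent.W71.MinPolyZ P α ∧
      P.natDegree ≤ n ∧ |ξ - α| ≤ (Pool.Agent.W71.hgt P : ℝ) ^ (-v - 1)}.Finite) :
    wStarExact n ξ ≤ (w : EReal) := by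
  apply sSup_le
  rintro W ⟨r, rfl, hr⟩
  rw [EReal.coe_le_coe_iff]
  by_contra hcon
  push Not at hcon
  obtain ⟨X₀, hX₀⟩ := Pool.Agent.Y627.SP.star_upper (n := n) ξ w r (by linarith) hcon hξ hfin
  obtain ⟨X, h1, h2, α, P, -, h4, h5, h6, -, h8⟩ := hr X₀
  have := hX₀ X h1 h2 α P h4 h5.le h6
  exact absurd h8 (not_le.2 this)

lemma root_Z {ζ : ℝ} (hζ : Transcendental ℤ ζ) (P : ℤ[X]) (hP : P ≠ 0) : aeval ζ P ≠ 0 :=
  fun h => hζ ⟨P, hP, h⟩

lemma exists_prescribed (av : ℕ → ℝ) (w : ℕ → ℝ) (hw1 : ∀ n : ℕ, 1 ≤ n → (n : ℝ) ≤ w n)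
    (hw2 : ∀ i j : ℕ, 1 ≤ i → i ≤ j → w i ≤ w j) : ∃ ζ ∈ Prescribed w, ∀ k, ζ ≠ av k := by
  obtain ⟨ξ, h0, h1, h2, h3⟩ := Pool.Agent.Y627.SP.all_deg av w hw1 hw2
  have hroot := Pool.Agent.Y627.SP.no_root ξ w h1
  have htr : Transcendental ℤ ξ := by
    rintro ⟨P, hP, h⟩
    exact hroot P hP h
  refine ⟨ξ, ⟨Pool.Agent.Y627.SP.trans_of_no_root ξ hroot, ?_⟩, h0⟩
  intro n hn
  have hn0 : (1 : ℝ) ≤ n := by exact_mod_cast hn
  have hwn := hw1 n hn
  exact ⟨le_antisymm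
      (Pool.Agent.Results.MP_5a602a_nt.MahlerSpectrum.wExact_le ξ (w n) (by linarith) htr (h1 n hn))
      (Pool.Agent.Results.MP_5a602a_nt.MahlerSpectrum.le_wExact ξ (w n) (by linarith) htr (h3 n hn)),
    le_antisymm (wStar_le ξ (w n) (by linarith) hroot (h2 n hn))
      (le_wStar ξ (w n) (by linarith) hroot (h3 n hn))⟩

/-- (A) For every `n ≥ 1` the spectrum of `w_{=n}` is the interval `[n, ∞]`.
(B) For every `n ≥ 1` the spectrum of `w^*_{=n}` contains the interval `[n, ∞]`.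
(C) Joint spectra: for every non-decreasing sequence of real numbers `w_n ≥ n` (`n ≥ 1`) the set of
transcendental real `ζ` with `w_{=n}(ζ) = w^*_{=n}(ζ) = w_n` for ALL `n ≥ 1` at once is
uncountable. -/
theorem result :
    (∀ n : ℕ, 1 ≤ n → spectrum n = Set.Icc (n : EReal) ⊤) ∧
    (∀ n : ℕ, 1 ≤ n → Set.Icc (n : EReal) ⊤ ⊆ starSpectrum n) ∧
    (∀ w : ℕ → ℝ, (∀ n : ℕ, 1 ≤ n → (n : ℝ) ≤ w n) →
      (∀ m n : ℕ, 1 ≤ m → m ≤ n → w m ≤ w n) → ¬ (Prescribed w).Countable) := by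
  refine ⟨Pool.Agent.Results.MP_5a602a_nt.MahlerSpectrum.result, ?_, ?_⟩
  · rintro n hn x ⟨hx, -⟩
    have hn0 : (1 : ℝ) ≤ n := by exact_mod_cast hn
    induction x with
    | bot => exact absurd (le_bot_iff.1 hx) (EReal.natCast_ne_bot n)
    | top =>
      obtain ⟨ξ, hξ, hinf⟩ := Pool.Agent.TH970.SE.top hn
      refine ⟨ξ, Pool.Agent.Results.MP_5a602a_nt.MahlerSpectrum.trans_Q hξ, ?_⟩
      rw [EReal.eq_top_iff_forall_lt]
      intro y
      refine lt_of_lt_of_le ?_ (le_wStar ξ (max y 0 + 1) (by positivity) (root_Z hξ)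
        (hinf (max y 0 + 1) (by positivity)))
      have : y < max y 0 + 1 := by linarith [le_max_left y 0]
      exact_mod_cast this
    | coe w =>
      have hw : (n : ℝ) ≤ w := by exact_mod_cast hx
      obtain ⟨ζ, ⟨h1, h2⟩, -⟩ := exists_prescribed (fun _ => 0)
        (fun m => if m < n then (m : ℝ) else max w m)
        (by
          intro m _
          split_ifs
          · exact le_rfl
          · exact le_max_right _ _)
        (by
          intro i j _ hij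
          have hijR : (i : ℝ) ≤ j := by exact_mod_cast hij
          split_ifs with h3 h4 h4
          · exact hijR
          · exact hijR.trans (le_max_right _ _)
          · omega
          · exact max_le_max le_rfl hijR)
      refine ⟨ζ, h1, ?_⟩
      rw [(h2 n hn).2]
      simp only
      rw [if_neg (lt_irrefl n), max_eq_left hw]
  · intro w hw1 hw2 hcount
    obtain ⟨av, hav⟩ := (hcount.union (Set.countable_singleton (0 : ℝ))).exists_eq_range
      ⟨0, Or.inr rfl⟩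
    obtain ⟨ξ, hξ, hne⟩ := exists_prescribed av w hw1 hw2
    have : ξ ∈ Set.range av := by rw [← hav]; exact Or.inl hξ
    obtain ⟨k, hk⟩ := this
    exact hne k hk.symm

end Pool.Agent.Results.MP_5a602a_nt.JointSpectrum
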